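import Pool.Agent.Helper30.BG.Goals

/-!
# MP_66e6f4_an, packet BG-B0S: the strip barrier
-/

open InnerProductSpace Metric Set Filter Topology MeasureTheory
open scoped ContDiff Laplacian

namespace Pool.Agent.Helper55.BG

open Pool.Agent.Helper30.BG

theorem b0s (hMP : S_MP) : S_B0S := by
  intro P E g M hP hP0 hE hE1 hg hLE hcl x hx
  by_contra hcon
  push Not at hcon
  have hM : 0 ≤ M := (hg x hx).1.trans (hg x hx).2
  set μ : ℝ := 2 * M + 1 with hμ
  have hμ1 : 1 ≤ μ := by rw [hμ]; linarith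
  have hμ0 : 0 < μ := by linarith
  set gap : ℝ := E x - (1 - Real.exp (-(μ * x 0))) with hgap
  have hgap0 : 0 < gap := by rw [hgap]; linarith
  have hx0 := hP0 x hx
  have hex1 : Real.exp (-(μ * x 0)) < 1 := by
    rw [Real.exp_lt_one_iff]
    have := mul_pos hμ0 hx0
    linarith
  -- the constants
  obtain ⟨X, hX1, hX2⟩ : ∃ X : ℝ, x 0 < X ∧ Real.exp (-(μ * X)) ≤ gap / 4 := by
    have ht : Tendsto (fun X : ℝ => Real.exp (-(μ * X))) atTop (𝓝 0) := by
      have h1 : Tendsto (fun X : ℝ => μ * X) atTop atTop := tendsto_id.const_mul_atTop hμ0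
      exact Real.tendsto_exp_neg_atTop_nhds_zero.comp h1
    have h2 := ht.eventually (eventually_lt_nhds (show (0 : ℝ) < gap / 4 by positivity))
    obtain ⟨X, h3, h4⟩ := (h2.and (eventually_gt_atTop (x 0))).exists
    exact ⟨X, h4, h3.le⟩
  have hX0 : 0 < X := hx0.trans hX1
  set q : ℝ := x 1 ^ 2 + x 2 ^ 2 with hq
  have hq0 : 0 ≤ q := by positivity
  set δ : ℝ := min (μ * Real.exp (-(μ * X)) / 4) (gap / (4 * (q + 1))) with hδ
  have hδ0 : 0 < δ := by
    rw [hδ]
    refine lt_min ?_ ?_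
    · have := Real.exp_pos (-(μ * X))
      positivity
    · positivity
  have hδ1 : 4 * δ ≤ μ * Real.exp (-(μ * X)) := by
    have := min_le_left (μ * Real.exp (-(μ * X)) / 4) (gap / (4 * (q + 1)))
    rw [← hδ] at this
    linarith
  have hδ2 : δ * q ≤ gap / 4 := by
    have h1 := min_le_right (μ * Real.exp (-(μ * X)) / 4) (gap / (4 * (q + 1)))
    rw [← hδ] at h1
    rw [le_div_iff₀ (by positivity)] at h1
    nlinarith
  set ρ : ℝ := q + 1 + 1 / δ with hρ
  have hρ0 : 0 < ρ := by rw [hρ]; positivity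
  have hρ1 : q < ρ ^ 2 := by
    have h1 : q + 1 ≤ ρ := by rw [hρ]; have : 0 < 1 / δ := by positivity
                              linarith
    nlinarith
  have hρ2 : 1 ≤ δ * ρ ^ 2 := by
    have h1 : 1 / δ ≤ ρ := by rw [hρ]; linarith
    have h2 : 1 ≤ ρ := by rw [hρ]; have : 0 < 1 / δ := by positivity
                          linarith
    have h3 : 1 ≤ δ * ρ := by
      have := mul_le_mul_of_nonneg_left h1 hδ0.le
      rwa [mul_one_div_cancel hδ0.ne'] at this
    nlinarith
  set ε : ℝ := gap / 8 with hε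
  have hε0 : 0 < ε := by rw [hε]; positivity
  set Ω : Set E3 := {y | y ∈ P ∧ ε < E y ∧ y 0 < X ∧ y 1 ^ 2 + y 2 ^ 2 < ρ ^ 2} with hΩ
  set v : E3 → ℝ := fun y => (-Real.exp ((-μ) * y 0) + δ * (y 1 * y 1 + y 2 * y 2) - E y) +
    (1 + Real.exp (-(μ * X)) + ε) with hv
  have hc0 : Continuous (fun y : E3 => y 0) := by fun_prop
  have hcq : Continuous (fun y : E3 => y 1 ^ 2 + y 2 ^ 2) := by fun_prop
  have hΩo : IsOpen Ω := by
    rw [isOpen_iff_mem_nhds]
    rintro y ⟨h1, h2, h3, h4⟩
    have a1 := hP.mem_nhds h1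
    have a2 := (hE y h1).continuousAt.eventually (eventually_gt_nhds h2)
    have a3 := hc0.continuousAt.eventually (eventually_lt_nhds h3)
    have a4 := hcq.continuousAt.eventually (eventually_lt_nhds h4)
    filter_upwards [a1, a2, a3, a4] with z b1 b2 b3 b4
    exact ⟨b1, b2, b3, b4⟩
  have hΩb : Bornology.IsBounded Ω := by
    refine (isBounded_closedBall (x := (0 : E3)) (r := X + ρ)).subset ?_
    rintro y ⟨h1, h2, h3, h4⟩
    rw [mem_closedBall_zero_iff]
    have h5 := norm_sq_eq y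
    have h6 := hP0 y h1
    have h7 : y 0 ^ 2 ≤ X ^ 2 := by nlinarith
    have h8 : ‖y‖ ^ 2 ≤ (X + ρ) ^ 2 := by nlinarith [mul_pos hX0 hρ0]
    exact le_of_sq_le_sq h8 (by positivity)
  have hclsub : closure Ω ⊆ {y | y ∈ P ∧ ε ≤ E y} := by
    refine closure_minimal ?_ (hcl ε hε0)
    rintro y ⟨h1, h2, h3, h4⟩
    exact ⟨h1, h2.le⟩
  have hcl0 : closure Ω ⊆ {y | y 0 ≤ X} := by
    refine closure_minimal ?_ (isClosed_le hc0 continuous_const)
    rintro y ⟨h1, h2, h3, h4⟩
    exact h3.le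
  have hHD : ∀ y ∈ P, HD2 v y
      (fun i => (if i = 0 then μ * Real.exp (-μ * y 0) else 0) + δ * (if i = 0 then 0 else 2 * y i) -
        pd i E y)
      (-(μ ^ 2 * Real.exp (-μ * y 0)) + 4 * δ - Δ E y) := by
    intro y hy
    have h1 := (HD2.expCoord (-μ) y).neg
    have h2 := fun i : Fin 3 => (HD2.coord i y).mul (HD2.coord i y)
    have h3 := ((h2 1).add (h2 2)).const_mul δ
    have h4 := ((h1.add h3).sub (HD2.mk' (hE y hy))).add_const (1 + Real.exp (-(μ * X)) + ε)
    refine (h4.congr (Eventually.of_forall fun z => ?_)).of_eq ?_ ?_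
    · rfl
    · funext i
      fin_cases i
      · simp
      · simp
        left
        ring
      · simp
        left
        ring
    · simp [Fin.sum_univ_three]
      ring
  have hvc : ∀ y ∈ P, ContinuousAt v y := fun y hy => (hHD y hy).cd.continuousAt
  have key := hMP Ω v g M hΩo hΩb (fun y hy => (hvc y (hclsub hy).1).continuousWithinAt)
    (fun y hy => (hHD y hy.1).cd)
    (fun y hy => by
      rw [abs_of_nonneg (hg y hy.1).1]
      exact (hg y hy.1).2)
    (fun y hy => by
      have hd := hHD y hy.1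
      rw [hd.lap, hd.pd 0]
      simp only [if_true]
      have h1 := hLE y hy.1
      have h2 := hg y hy.1
      have h3 : Real.exp (-(μ * X)) ≤ Real.exp (-μ * y 0) := by
        apply Real.exp_le_exp.2
        have := mul_lt_mul_of_pos_left hy.2.2.1 hμ0
        linarith
      have h4 : 0 < Real.exp (-μ * y 0) := Real.exp_pos _
      have h5 : 1 ≤ μ - 2 * g y := by rw [hμ]; linarith [h2.2]
      have h6 : μ * Real.exp (-μ * y 0) * 1 ≤ μ * Real.exp (-μ * y 0) * (μ - 2 * g y) :=
        mul_le_mul_of_nonneg_left h5 (by positivity)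
      have h7 : μ * Real.exp (-(μ * X)) ≤ μ * Real.exp (-μ * y 0) :=
        mul_le_mul_of_nonneg_left h3 hμ0.le
      nlinarith)
    (fun y hy => by
      rw [hΩo.frontier_eq] at hy
      obtain ⟨hy1, hy2⟩ := hy
      obtain ⟨hyP, hyE⟩ := hclsub hy1
      have hyX : y 0 ≤ X := hcl0 hy1
      have hyE1 := hE1 y hyP
      have hy0 := hP0 y hyP
      have e1 : Real.exp (-μ * y 0) ≤ 1 := by
        rw [Real.exp_le_one_iff]
        nlinarith
      have e2 : 0 < Real.exp (-(μ * X)) := Real.exp_pos _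
      have e3 : 0 ≤ δ * (y 1 * y 1 + y 2 * y 2) := by
        have := mul_self_nonneg (y 1)
        have := mul_self_nonneg (y 2)
        positivity
      show 0 ≤ (-Real.exp ((-μ) * y 0) + δ * (y 1 * y 1 + y 2 * y 2) - E y) +
        (1 + Real.exp (-(μ * X)) + ε)
      by_cases c1 : ε < E y
      · by_cases c2 : y 0 < X
        · have c3 : ρ ^ 2 ≤ y 1 ^ 2 + y 2 ^ 2 := by
            by_contra c
            push Not at c
            exact hy2 ⟨hyP, c1, c2, c⟩
          have c4 : δ * ρ ^ 2 ≤ δ * (y 1 * y 1 + y 2 * y 2) := by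
            apply mul_le_mul_of_nonneg_left _ hδ0.le
            nlinarith
          linarith
        · have c3 : y 0 = X := le_antisymm hyX (not_lt.1 c2)
          rw [c3]
          have c4 : -μ * X = -(μ * X) := by ring
          rw [c4]
          linarith
      · linarith [not_lt.1 c1])
  have hxΩ : x ∈ Ω := ⟨hx, by
    have : gap < E x := by rw [hgap]; linarith
    rw [hε]; linarith, hX1, hρ1⟩
  have hfin := key x (subset_closure hxΩ)
  have hfin2 : 0 ≤ (-Real.exp ((-μ) * x 0) + δ * (x 1 * x 1 + x 2 * x 2) - E x) +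
        (1 + Real.exp (-(μ * X)) + ε) := hfin
  have e4 : -μ * x 0 = -(μ * x 0) := by ring
  rw [e4] at hfin2
  have e5 : δ * (x 1 * x 1 + x 2 * x 2) = δ * q := by rw [hq]; ring
  rw [e5] at hfin2
  have e6 : E x = gap + (1 - Real.exp (-(μ * x 0))) := by rw [hgap]; ring
  rw [e6] at hfin2
  rw [hε] at hfin2
  linarith

end Pool.Agent.Helper55.BG
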